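import Pool.Agent.H709Reg.Assemble
import Pool.Agent.H709Reg.Gamma449

open MvPolynomial
open Pool.Agent.Helper449.ZM
open Pool.Agent.H709Reg

namespace Pool.Agent.Results.MP_27e6ae_ag.ConnectedFibres

/-- An almost holomorphic map `φ : X ⇢ Y` with connected fibres from a smooth projective threefold
to a smooth projective surface, with resolution `Γ`, satisfying Assumption (A) (with `D = 0`:
`π_* K_{Γ/Y} = 0`), which is not birationally equivalent to a morphism. -/
theorem result :
    ∃ (K : Type) (_ : Field K) (_ : Algebra ℂ K) (L : Type) (_ : Field L) (_ : Algebra ℂ L)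
      (X Γ : ProjVar K) (Y : ProjVar L) (φ : L →ₐ[ℂ] K),
      -- `X` and `Γ` are smooth projective threefolds, `Y` is a smooth projective surface
      Algebra.trdeg ℂ K = 3 ∧ Algebra.trdeg ℂ L = 2 ∧ X.Smooth ∧ Γ.Smooth ∧ Y.Smooth ∧
      -- the general fibre of `φ` is connected: `L` is algebraically closed in `K`
      (∀ z : K, IsAlgebraic φ.fieldRange z → z ∈ φ.fieldRange) ∧
      -- `φ : X ⇢ Y` is almost holomorphic
      AlmostHolomorphic X Y φ ∧
      -- `Γ` is a resolution of the indeterminacy of `φ`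
      IsMorphism Γ X (AlgHom.id ℂ K) ∧ IsMorphism Γ Y φ ∧
      -- Assumption (A), with `D = 0`: the divisor `K_{Γ/Y}` is exceptional over `X`
      RelativeCanonicalExceptional 3 2 X Y φ ∧
      -- no smooth projective birational model `Y'` of `Y` makes `φ` a morphism
      ∀ (L' : Type) [Field L'] [Algebra ℂ L'] (Y' : ProjVar L') (β : L' ≃ₐ[ℂ] L),
        Y'.Smooth → ¬ IsMorphism X Y' (φ.comp (β : L' →ₐ[ℂ] L)) := by
  obtain ⟨K, _, _, ⟨d⟩⟩ := J27297.exists_ellData
  let M := FractionRing (MvPolynomial (Fin 2) ℂ)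
  obtain ⟨φ, e0, e1⟩ := exists_hom M d.p d.q (J27398.indep_pq d)
  have hP : am M (X 0) ≠ 0 := am_ne (X_ne_zero 0)
  have hQ : am M (X 1) ≠ 0 := am_ne (X_ne_zero 1)
  exact ⟨K, inferInstance, inferInstance, M, inferInstance, inferInstance, XVar d, GammaVar d,
    YVar (am M (X 0)) (am M (X 1)) hP hQ gen_am, φ, J27398.trdeg_eq d, J6.trdeg_eq M,
    X_smooth d, Gamma_smooth d, Y_smooth, closed_fieldRange d φ e0 e1,
    almostHolomorphic d hP hQ gen_am φ e0 e1, Gamma_X d, Gamma_Y d φ e0 e1,
    relCan d hP hQ gen_am φ e0 e1,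
    fun L' _ _ Y' β hY' => nonexistence d φ e0 e1 L' Y' β hY'⟩

end Pool.Agent.Results.MP_27e6ae_ag.ConnectedFibres
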