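import Pool.Agent.Helper449.ZM.NonEx
import Pool.Agent.Helper449.ZM.Exc
import Pool.Agent.Helper449.ZM.AH

open MvPolynomial
open Pool.Agent.Helper449.ZM

namespace Pool.Agent.Results.MP_27e6ae_ag.QuotientOfPlane

/-- An almost holomorphic map `φ : X ⇢ Y` of smooth projective surfaces, with resolution `Γ`,
satisfying Assumption (A) (with `D = 0`: `π_* K_{Γ/Y} = 0`), which is not birationally equivalent to
a morphism. -/
theorem result :
    ∃ (K : Type) (_ : Field K) (_ : Algebra ℂ K) (L : Type) (_ : Field L) (_ : Algebra ℂ L)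
      (X Γ : ProjVar K) (Y : ProjVar L) (φ : L →ₐ[ℂ] K),
      -- `X`, `Γ` and `Y` are smooth projective surfaces
      Algebra.trdeg ℂ K = 2 ∧ Algebra.trdeg ℂ L = 2 ∧ X.Smooth ∧ Γ.Smooth ∧ Y.Smooth ∧
      -- `φ : X ⇢ Y` is almost holomorphic
      AlmostHolomorphic X Y φ ∧
      -- `Γ` is a resolution of the indeterminacy of `φ`
      IsMorphism Γ X (AlgHom.id ℂ K) ∧ IsMorphism Γ Y φ ∧
      -- Assumption (A), with `D = 0`: the divisor `K_{Γ/Y}` is exceptional over `X`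
      RelativeCanonicalExceptional 2 2 X Y φ ∧
      -- no smooth projective birational model `Y'` of `Y` makes `φ` a morphism
      ∀ (L' : Type) [Field L'] [Algebra ℂ L'] (Y' : ProjVar L') (β : L' ≃ₐ[ℂ] L),
        Y'.Smooth → ¬ IsMorphism X Y' (φ.comp (β : L' →ₐ[ℂ] L)) := by
  let K := FractionRing (MvPolynomial (Fin 2) ℂ)
  obtain ⟨φ, e1, e2⟩ := J7.exists_phi K
  have hx0 : am K (X 0) ≠ 0 := am_ne (X_ne_zero 0)
  have hy0 : am K (X 1) ≠ 0 := am_ne (X_ne_zero 1)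
  exact ⟨K, inferInstance, inferInstance, K, inferInstance, inferInstance,
    P2 (am K (X 0)) (am K (X 1)) gen_am, G2 (am K (X 0)) (am K (X 1)) hx0 hy0 gen_am,
    G2 (am K (X 0)) (am K (X 1)) hx0 hy0 gen_am, φ,
    J6.trdeg_eq K, J6.trdeg_eq K, P2_smooth hx0 hy0 gen_am, G2_smooth hx0 hy0 gen_am,
    G2_smooth hx0 hy0 gen_am, almostHolomorphic hx0 hy0 gen_am φ e1 e2,
    G2_P2_isMorphism hx0 hy0 gen_am, G2_G2_isMorphism hx0 hy0 gen_am φ e1 e2,
    relcan φ e1 e2 hx0 hy0 gen_am,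
    fun L' _ _ Y' β hY' => nonexistence φ e1 e2 L' Y' β hY'⟩

end Pool.Agent.Results.MP_27e6ae_ag.QuotientOfPlane
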